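import Mathlib
import Pool.Agent.Work.MP_b29fea_lc.MainU

set_option autoImplicit false

open Set Order
open scoped Ordinal

universe u

namespace Pool.Agent.Results.MP_b29fea_lc.DownUpMatching

/-- For all natural numbers `j` and `k ≥ 1` and every limit ordinal `η`, every graph on a well-ordered set of type
`ω ^ (η + j * k)` has an independent set of type `ω ^ (η + j)` or a down-up matching from a set `A`
of type `ω ^ k` (to the set `B = f '' A`). -/
theorem result :
    ∀ (j k : ℕ), 1 ≤ k → ∀ η : Ordinal.{u}, IsSuccLimit η →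
      ∀ (V : Type u) [LinearOrder V] [WellFoundedLT V],
        typeLT V = ω ^ (η + ((j * k : ℕ) : Ordinal.{u})) →
        ∀ G : SimpleGraph V,
          (∃ I : Set V, G.IsIndepSet I ∧ typeLT I = ω ^ (η + (j : Ordinal.{u}))) ∨
          (∃ (A : Set V) (f : V → V), typeLT A = ω ^ (k : Ordinal.{u}) ∧ Set.InjOn f A ∧
            (∀ a ∈ A, G.Adj a (f a)) ∧ ∀ a ∈ A, ∀ b ∈ f '' A, a < b) := by
  classical
  intro j k hk η hη V _ _ hV G
  obtain ⟨e⟩ : Nonempty (V ≃o (Iio (ω ^ (η + ((j * k : ℕ) : Ordinal.{u}))) : Set Ordinal.{u})) := by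
    rw [← hV]
    have h1 : typeLT V = typeLT (typeLT V).ToType := (Ordinal.type_toType _).symm
    obtain ⟨h2⟩ := Ordinal.type_eq.1 h1
    exact ⟨(OrderIso.ofRelIsoLT h2).trans Ordinal.ToType.mk.symm⟩
  let c : V ↪ Ordinal.{u} := ⟨fun v => (e v : Ordinal.{u}), fun x y h => e.injective (Subtype.ext h)⟩
  have hc : ∀ x y, c x < c y ↔ x < y := fun x y => by
    show ((e x : Ordinal.{u}) < (e y : Ordinal.{u})) ↔ x < y
    rw [Subtype.coe_lt_coe, e.lt_iff_lt]
  have hran : ∀ S : Set Ordinal.{u}, S ⊆ Iio (ω ^ (η + ((j * k : ℕ) : Ordinal.{u}))) →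
      ∀ s ∈ S, ∃ v, c v = s := by
    intro S hS s hs
    refine ⟨e.symm ⟨s, hS hs⟩, ?_⟩
    show ((e (e.symm ⟨s, hS hs⟩) : Ordinal.{u})) = s
    rw [e.apply_symm_apply]
  have htype : ∀ S : Set Ordinal.{u}, S ⊆ Iio (ω ^ (η + ((j * k : ℕ) : Ordinal.{u}))) →
      ∀ o : Ordinal.{u}, Nonempty (S ≃o Iio o) → typeLT (c ⁻¹' S) = o := by
    intro S hS o ⟨h⟩
    have e1 : (c ⁻¹' S) ≃o S :=
      { toFun := fun x => ⟨c x, x.2⟩
        invFun := fun s => ⟨Classical.choose (hran S hS s s.2), by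
          show c _ ∈ S
          rw [Classical.choose_spec (hran S hS s s.2)]; exact s.2⟩
        left_inv := fun x => by
          apply Subtype.ext
          exact c.injective (Classical.choose_spec (hran S hS (c x) x.2))
        right_inv := fun s => by
          apply Subtype.ext
          exact Classical.choose_spec (hran S hS s s.2)
        map_rel_iff' := fun {x y} => by
          show (c x ≤ c y) ↔ x ≤ y
          rw [← not_lt, hc, not_lt]; rfl }
    have e2 : (c ⁻¹' S) ≃o o.ToType := (e1.trans h).trans Ordinal.ToType.mk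
    rw [e2.ordinalType_congr, Ordinal.type_toType]
  have hadj : ∀ x y, (G.map c).Adj (c x) (c y) ↔ G.Adj x y := fun x y =>
    SimpleGraph.map_adj_apply
  rcases Pool.Agent.Work.MP_b29fea_lc.MainU.main j k hk η hη (G.map c) with
    ⟨S, hS, hSo, hSi⟩ | ⟨A, B, hA, hB, hAB, hAo, f, hf⟩
  · left
    refine ⟨c ⁻¹' S, ?_, htype S hS _ hSo⟩
    intro x hx y hy hxy hadj'
    exact hSi hx hy (fun h => hxy (c.injective h)) ((hadj x y).2 hadj')
  · right
    have hex : ∀ x : V, ∃ y : V, ∀ h : c x ∈ A, c y = f ⟨c x, h⟩ := by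
      intro x
      by_cases h : c x ∈ A
      · obtain ⟨y, hy⟩ := hran B hB (f ⟨c x, h⟩) (f ⟨c x, h⟩).2
        exact ⟨y, fun _ => hy⟩
      · exact ⟨x, fun h' => absurd h' h⟩
    choose F hF using hex
    refine ⟨c ⁻¹' A, F, htype A hA _ hAo, ?_, ?_, ?_⟩
    · intro x hx y hy hxy
      have h1 := hF x hx
      have h2 := hF y hy
      rw [hxy, h2] at h1
      have h3 := f.injective (Subtype.ext h1)
      exact c.injective (congrArg Subtype.val h3).symm
    · intro a ha
      have h1 := hf ⟨c a, ha⟩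
      rw [← hF a ha] at h1
      exact (hadj a (F a)).1 h1
    · rintro a ha _ ⟨b, hb, rfl⟩
      rw [← hc, hF b hb]
      exact hAB _ ha _ (f ⟨c b, hb⟩).2

end Pool.Agent.Results.MP_b29fea_lc.DownUpMatching
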